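import Pool.Agent.H61.CMC.TargetsE1
import Pool.Agent.H60.CM4B.UI2

/-!
# Invariance under the units of the theta functions with an angular factor
-/

set_option autoImplicit false

namespace Pool.Agent.H26.CMC1

open MeasureTheory Set Filter NumberField NumberField.InfinitePlace NumberField.Units
  NumberField.Units.dirichletUnitTheorem
open Pool.Agent.H65.CM4 Pool.Agent.H65.CMC Pool.Agent.H25.HK Pool.Agent.H61.CM4 Pool.Agent.H61.CMC
open Pool.Agent.H60.CM4B
open scoped Real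

theorem pf_UI3 (hANG : T_ANG) : T_UI3 := by
  intro k _ _ _ m x y τ z ε hy
  classical
  have hexp : ∀ v : Pl k, Real.exp (yc k τ (z + logEmbedding k (Additive.ofMul ε)) v) =
      Real.exp (yc k τ z v) * rv v ((ε : 𝓞 k) : k) ^ 2 := by
    intro v
    rw [(Pool.Agent.H87.HK.yc_main k).2.2.1, Real.exp_add]
    have hne : ((ε : 𝓞 k) : k) ≠ 0 := by
      simpa using ε.ne_zero
    have hpos : 0 < v ((ε : 𝓞 k) : k) := by
      rw [NumberField.InfinitePlace.pos_iff]
      exact hne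
    have h2 : Real.exp (2 * Real.log (v ((ε : 𝓞 k) : k))) = rv v ((ε : 𝓞 k) : k) ^ 2 := by
      rw [two_mul, Real.exp_add, Real.exp_log hpos, ← abs_rv, ← sq, sq_abs]
    rw [h2]
  have h1 : ∀ u : V2 k, pq (wa m) x y (yc k τ (z + logEmbedding k (Additive.ofMul ε))) u =
      pq (wa m) x y (yc k τ z) ((ε : 𝓞 k) • u) := by
    intro u
    unfold pq
    refine Finset.prod_congr rfl fun v _ => ?_
    rw [hexp, rv_smul]
    ring
  have hq : ∀ u : V2 k, qs x y (yc k τ (z + logEmbedding k (Additive.ofMul ε))) u =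
      qs x y (yc k τ z) ((ε : 𝓞 k) • u) := by
    intro u
    unfold qs
    refine Finset.sum_congr rfl fun v _ => ?_
    rw [hexp, rv_smul]
    ring
  refine ⟨h1, ?_⟩
  intro M
  unfold th3
  rw [← (MulAction.toPerm ε : Equiv.Perm (V2 k)).tsum_eq (fun u : V2 k =>
    if u ∈ M then am m x y u * ((pq (wa m) x y (yc k τ z) u *
      Real.exp (-(2 * π) * qs x y (yc k τ z) u) : ℝ) : ℂ) else 0)]
  refine tsum_congr fun u => ?_
  have h2 : (MulAction.toPerm ε : Equiv.Perm (V2 k)) u = (ε : 𝓞 k) • u := rfl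
  have hne : (ε : 𝓞 k) ≠ 0 := ε.ne_zero
  rw [h1, hq, h2, (hANG k m x y hy).2.2.2.1 (ε : 𝓞 k) u hne]
  have h3 : (ε : 𝓞 k) • u ∈ M ↔ u ∈ M := by
    constructor
    · intro h
      have h4 := M.smul_mem ((ε⁻¹ : (𝓞 k)ˣ) : 𝓞 k) h
      rwa [smul_smul, Units.inv_mul, one_smul] at h4
    · exact fun h => M.smul_mem _ h
  by_cases h : u ∈ M
  · rw [if_pos h, if_pos (h3.2 h)]
  · rw [if_neg h, if_neg (fun h' => h (h3.1 h'))]

end Pool.Agent.H26.CMC1
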